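import Mathlib

/-!
# Diamond-saturated families without `∅` and `[n]` (MP_99eff6_co)

Working definitions.  A diamond in `F` is `Z ⊆ X, Y ⊆ W` with `X`, `Y` incomparable
(then the four sets are automatically distinct and form an induced copy of `Q₂`).
-/

namespace Pool.Agent.Helper7.DS

variable {n : ℕ}

/-- `S` is the bottom of a diamond whose other three sets are in `F`. -/
def Bot (F : Finset (Finset (Fin n))) (S : Finset (Fin n)) : Prop :=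
  ∃ X ∈ F, ∃ Y ∈ F, ∃ W ∈ F, S ⊆ X ∧ S ⊆ Y ∧ X ⊆ W ∧ Y ⊆ W ∧ ¬ X ⊆ Y ∧ ¬ Y ⊆ X

/-- `S` is the top of a diamond whose other three sets are in `F`. -/
def Top (F : Finset (Finset (Fin n))) (S : Finset (Fin n)) : Prop :=
  ∃ Z ∈ F, ∃ X ∈ F, ∃ Y ∈ F, Z ⊆ X ∧ Z ⊆ Y ∧ X ⊆ S ∧ Y ⊆ S ∧ ¬ X ⊆ Y ∧ ¬ Y ⊆ X

/-- `S` is a side of a diamond whose other three sets are in `F`. -/
def Side (F : Finset (Finset (Fin n))) (S : Finset (Fin n)) : Prop :=
  ∃ Z ∈ F, ∃ X ∈ F, ∃ W ∈ F, Z ⊆ S ∧ Z ⊆ X ∧ S ⊆ W ∧ X ⊆ W ∧ ¬ X ⊆ S ∧ ¬ S ⊆ X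

/-- `F` is diamond-saturated and contains neither `∅` nor `[n]`. -/
structure Sat (F : Finset (Finset (Fin n))) : Prop where
  free : ∀ Z ∈ F, ∀ X ∈ F, ∀ Y ∈ F, ∀ W ∈ F, Z ⊆ X → Z ⊆ Y → X ⊆ W → Y ⊆ W → X ⊆ Y ∨ Y ⊆ X
  sat : ∀ S, S ∉ F → Bot F S ∨ Side F S ∨ Top F S
  empty : ∅ ∉ F
  univ : Finset.univ ∉ F

/-- A facet: a maximal set containing no member of `F`. -/
def Facet (F : Finset (Finset (Fin n))) (S : Finset (Fin n)) : Prop :=
  (∀ C ∈ F, ¬ C ⊆ S) ∧ ∀ w, w ∉ S → ∃ C ∈ F, C ⊆ insert w S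

/-- Every function on `F` is the restriction of an affine functional. -/
def Surj (F : Finset (Finset (Fin n))) : Prop :=
  ∀ f : Finset (Fin n) → ℝ, ∃ (v : Fin n → ℝ) (c : ℝ), ∀ C ∈ F, ∑ i ∈ C, v i = f C + c

/-! ## Statements of the parts -/

/-- COMPL: the family of complements. -/
def S_COMPL : Prop := ∀ (n : ℕ) (F : Finset (Finset (Fin n))), Sat F → Sat (F.image compl)

/-- SPAN: affine spanning. -/
def S_SPAN : Prop := ∀ (n : ℕ) (F : Finset (Finset (Fin n))), Sat F →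
  ∀ (v : Fin n → ℝ) (c : ℝ), (∀ C ∈ F, ∑ i ∈ C, v i = c) → ∀ i, v i = 0

/-- LIN: if `F` affinely spans and has `n+1` members then every function on `F` is affine;
and spanning forces at least `n+1` members. -/
def S_LIN : Prop := ∀ (n : ℕ) (F : Finset (Finset (Fin n))), F.Nonempty →
  (∀ (v : Fin n → ℝ) (c : ℝ), (∀ C ∈ F, ∑ i ∈ C, v i = c) → ∀ i, v i = 0) →
  n + 1 ≤ F.card ∧ (F.card = n + 1 → Surj F)

/-- FAC: in the affinely independent case there is a facet `S` and `u ∉ S` with `S ∪ {u}` a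
minimal member of `F`. -/
def S_FAC : Prop := ∀ (n : ℕ) (F : Finset (Finset (Fin n))), Sat F → Surj F →
  ∃ (S : Finset (Fin n)) (u : Fin n), Facet F S ∧ u ∉ S ∧ insert u S ∈ F ∧
    ∀ C ∈ F, C ⊆ insert u S → C = insert u S

/-- CNT: the counting step. -/
def S_CNT : Prop := ∀ (n : ℕ) (F : Finset (Finset (Fin n))), Sat F →
  ∀ (S : Finset (Fin n)) (u : Fin n), Facet F S → u ∉ S → insert u S ∈ F →
    (∀ C ∈ F, C ⊆ insert u S → C = insert u S) → n + 2 ≤ F.card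

end Pool.Agent.Helper7.DS
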