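import Pool.Agent.Helper7.DS.Span

namespace Pool.Agent.Helper7.DS

open Finset

variable {n : ℕ} {F : Finset (Finset (Fin n))}

/-- `M` is a minimal member of `F`. -/
def Mn (F : Finset (Finset (Fin n))) (M : Finset (Fin n)) : Prop :=
  M ∈ F ∧ ∀ C ∈ F, C ⊆ M → C = M

theorem exists_min_below {Z : Finset (Fin n)} (hZ : Z ∈ F) : ∃ M, Mn F M ∧ M ⊆ Z := by
  classical
  have hA : (F.filter (fun M => M ⊆ Z)).Nonempty := ⟨Z, mem_filter.2 ⟨hZ, Subset.rfl⟩⟩
  obtain ⟨M, hM, hmin⟩ := exists_min_image _ card hA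
  obtain ⟨hMF, hMZ⟩ := mem_filter.1 hM
  refine ⟨M, ⟨hMF, fun C hC hCM => ?_⟩, hMZ⟩
  exact eq_of_subset_of_card_le hCM (hmin C (mem_filter.2 ⟨hC, hCM.trans hMZ⟩))

/-- Lemma F. -/
theorem lemmaF (hF : Sat F) {v : Fin n → ℝ} (hv : ∀ M, Mn F M → ∑ i ∈ M, v i ≤ 0) :
    ∃ S, Facet F S ∧ ∀ X ∈ F, ∀ Y ∈ F, ∀ W ∈ F, S ⊆ X → S ⊆ Y → X ⊆ W → Y ⊆ W →
      ¬ X ⊆ Y → ¬ Y ⊆ X → ∑ i ∈ W, v i ≤ ∑ i ∈ X, v i ∧ ∑ i ∈ W, v i ≤ ∑ i ∈ Y, v i := by
  classical
  have hno : ∀ C ∈ F, ¬ C ⊆ univ.filter (fun i => 0 < v i) := by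
    intro C hC hsub
    obtain ⟨M, hM, hMC⟩ := exists_min_below hC
    have hne : M.Nonempty := by
      rw [nonempty_iff_ne_empty]
      rintro rfl
      exact hF.empty hM.1
    have : 0 < ∑ i ∈ M, v i := sum_pos (fun i hi => (mem_filter.1 (hsub (hMC hi))).2) hne
    exact absurd (hv M hM) (not_le.2 this)
  obtain ⟨S, hPS, hS⟩ := exists_facet hno
  refine ⟨S, hS, ?_⟩
  intro X hX Y hY W hW hSX hSY hXW hYW h1 h2
  have hint := inter_eq hF hS hX hY hW hSX hSY hXW hYW h1 h2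
  have hneg : ∀ i, i ∉ S → v i ≤ 0 := fun i hi => by
    by_contra hcon
    exact hi (hPS (mem_filter.2 ⟨mem_univ i, not_le.1 hcon⟩))
  have eX : ∑ i ∈ X \ S, v i + ∑ i ∈ S, v i = ∑ i ∈ X, v i := sum_sdiff hSX
  have eY : ∑ i ∈ Y \ S, v i + ∑ i ∈ S, v i = ∑ i ∈ Y, v i := sum_sdiff hSY
  have eU : ∑ i ∈ X ∪ Y, v i + ∑ i ∈ X ∩ Y, v i = ∑ i ∈ X, v i + ∑ i ∈ Y, v i :=
    sum_union_inter
  have eW : ∑ i ∈ W \ (X ∪ Y), v i + ∑ i ∈ X ∪ Y, v i = ∑ i ∈ W, v i :=
    sum_sdiff (union_subset hXW hYW)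
  have nX : ∑ i ∈ X \ S, v i ≤ 0 := sum_nonpos fun i hi => hneg i (mem_sdiff.1 hi).2
  have nY : ∑ i ∈ Y \ S, v i ≤ 0 := sum_nonpos fun i hi => hneg i (mem_sdiff.1 hi).2
  have nW : ∑ i ∈ W \ (X ∪ Y), v i ≤ 0 := sum_nonpos fun i hi => hneg i fun hiS =>
    (mem_sdiff.1 hi).2 (mem_union_left _ (hSX hiS))
  rw [hint] at eU
  constructor <;> linarith

theorem FAC_thm : S_FAC := by
  classical
  intro n F hF hsurj
  -- functionals dual to the points
  choose v c hvc using fun C : Finset (Fin n) =>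
    hsurj (fun D => if D = C then (1 : ℝ) else 0)
  set U := F.filter (fun C => ¬ Mn F C) with hU
  let V : (Finset (Fin n) → ℝ) → Fin n → ℝ := fun g i => ∑ C ∈ U, g C * v C i
  let K : (Finset (Fin n) → ℝ) → ℝ := fun g => ∑ C ∈ U, g C * c C
  have hV : ∀ g, ∀ D ∈ F, ∑ i ∈ D, V g i = (if Mn F D then 0 else g D) + K g := by
    intro g D hD
    have h1 : ∑ i ∈ D, V g i = ∑ C ∈ U, g C * ∑ i ∈ D, v C i := by
      simp only [V]
      rw [sum_comm]
      exact sum_congr rfl fun C _ => (mul_sum _ _ _).symm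
    rw [h1]
    have h2 : ∀ C ∈ U, g C * ∑ i ∈ D, v C i = (if D = C then g C else 0) + g C * c C := by
      intro C _
      rw [hvc C D hD]
      split_ifs <;> ring
    rw [sum_congr rfl h2, sum_add_distrib, sum_ite_eq]
    congr 1
    by_cases hm : Mn F D
    · have : D ∉ U := fun h => (mem_filter.1 h).2 hm
      rw [if_neg this, if_pos hm]
    · have : D ∈ U := mem_filter.2 ⟨hD, hm⟩
      rw [if_pos this, if_neg hm]
  -- triples
  have triple : ∀ S, Facet F S → ∃ X ∈ F, ∃ Y ∈ F, ∃ W ∈ F, S ⊆ X ∧ S ⊆ Y ∧ X ⊆ W ∧ Y ⊆ W ∧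
      ¬ X ⊆ Y ∧ ¬ Y ⊆ X := fun S hS => bot_of_noMember hF hS.1
  have hcardlt : ∀ X Y W : Finset (Fin n), X ⊆ W → Y ⊆ W → ¬ Y ⊆ X →
      (X.card : ℝ) < W.card := by
    intro X Y W hXW hYW hYX
    have : X ⊂ W := ⟨hXW, fun h => hYX (hYW.trans h)⟩
    exact_mod_cast card_lt_card this
  have hnotmin : ∀ X Y W : Finset (Fin n), X ∈ F → X ⊆ W → Y ⊆ W → ¬ Y ⊆ X → ¬ Mn F W := by
    intro X Y W hX hXW hYW hYX hm
    have := hm.2 X hX hXW
    exact hYX (this ▸ hYW)
  rcases le_or_gt (K (fun C => (C.card : ℝ))) 0 with hc1 | hc1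
  · -- case 1
    exfalso
    obtain ⟨S, hS, hineq⟩ := lemmaF hF (v := V (fun C => (C.card : ℝ))) (by
      intro M hM
      rw [hV _ M hM.1, if_pos hM, zero_add]
      exact hc1)
    obtain ⟨X, hX, Y, hY, W, hW, hSX, hSY, hXW, hYW, h1, h2⟩ := triple S hS
    have h3 := (hineq X hX Y hY W hW hSX hSY hXW hYW h1 h2).1
    rw [hV _ X hX, hV _ W hW, if_neg (hnotmin X Y W hX hXW hYW h2)] at h3
    have h4 := hcardlt X Y W hXW hYW h2
    have h5 : (if Mn F X then (0 : ℝ) else (X.card : ℝ)) ≤ X.card := by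
      split_ifs
      · positivity
      · exact le_rfl
    linarith
  by_cases hc2 : K (fun _ => 1) = 0
  · -- case 3
    exfalso
    have hex : ∃ C1 ∈ U, c C1 < 0 := by
      by_contra hcon
      push Not at hcon
      have hz : ∀ C ∈ U, c C = 0 := by
        have h0 : ∑ C ∈ U, c C = 0 := by simpa [K] using hc2
        exact (sum_eq_zero_iff_of_nonneg hcon).1 h0
      have : K (fun C => (C.card : ℝ)) = 0 := sum_eq_zero fun C hC => by rw [hz C hC, mul_zero]
      linarith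
    obtain ⟨C1, hC1U, hC1⟩ := hex
    have hC1F : C1 ∈ F := (mem_filter.1 hC1U).1
    set t : ℝ := K (fun C => (C.card : ℝ)) / (- c C1) with ht
    have ht0 : 0 ≤ t := div_nonneg hc1.le (by linarith)
    let g : Finset (Fin n) → ℝ := fun C => (C.card : ℝ) + if C = C1 then t else 0
    have hKg : K g = 0 := by
      have h1 : K g = K (fun C => (C.card : ℝ)) + t * c C1 := by
        simp only [K, g, add_mul, sum_add_distrib]
        congr 1
        rw [sum_congr rfl (g := fun C => if C = C1 then t * c C1 else 0)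
          (fun C _ => by split_ifs with h <;> simp [h])]
        rw [sum_ite_eq' U C1, if_pos hC1U]
      rw [h1, ht]
      have hcc : c C1 ≠ 0 := hC1.ne
      rw [div_neg, neg_mul, div_mul_cancel₀ _ hcc, add_neg_cancel]
    obtain ⟨S, hS, hineq⟩ := lemmaF hF (v := V g) (by
      intro M hM
      rw [hV _ M hM.1, if_pos hM, zero_add, hKg])
    obtain ⟨X, hX, Y, hY, W, hW, hSX, hSY, hXW, hYW, h1, h2⟩ := triple S hS
    have key : ∀ X Y : Finset (Fin n), X ∈ F → X ⊆ W → Y ⊆ W → ¬ Y ⊆ X → X ≠ C1 →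
        ∑ i ∈ W, V g i ≤ ∑ i ∈ X, V g i → False := by
      intro X Y hX hXW hYW h2 hne h3
      rw [hV _ X hX, hV _ W hW, if_neg (hnotmin X Y W hX hXW hYW h2)] at h3
      have h4 := hcardlt X Y W hXW hYW h2
      have h5 : (if Mn F X then (0 : ℝ) else g X) ≤ X.card := by
        by_cases hm : Mn F X
        · rw [if_pos hm]
          exact Nat.cast_nonneg _
        · rw [if_neg hm]
          show (X.card : ℝ) + (if X = C1 then t else 0) ≤ X.card
          rw [if_neg hne, add_zero]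
      have h6 : (W.card : ℝ) ≤ g W := by
        show (W.card : ℝ) ≤ (W.card : ℝ) + (if W = C1 then t else 0)
        by_cases hm : W = C1
        · rw [if_pos hm]
          linarith
        · rw [if_neg hm]
          linarith
      linarith
    have h3 := hineq X hX Y hY W hW hSX hSY hXW hYW h1 h2
    by_cases hne : X = C1
    · have hne' : Y ≠ C1 := fun h => h1 (by rw [hne, h])
      exact key Y X hY hYW hXW h1 hne' h3.2
    · exact key X Y hX hXW hYW h2 hne h3.1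
  · -- case 2
    set r : ℝ := K (fun C => (C.card : ℝ)) / K (fun _ => 1) with hr
    let g : Finset (Fin n) → ℝ := fun C => (C.card : ℝ) - r
    have hKg : K g = 0 := by
      have h1 : K g = K (fun C => (C.card : ℝ)) - r * K (fun _ => 1) := by
        simp only [K, g, sub_mul, sum_sub_distrib, one_mul, mul_sum]
      rw [h1, hr, div_mul_cancel₀ _ hc2, sub_self]
    obtain ⟨S, hS, hineq⟩ := lemmaF hF (v := V g) (by
      intro M hM
      rw [hV _ M hM.1, if_pos hM, zero_add, hKg])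
    obtain ⟨X, hX, Y, hY, W, hW, hSX, hSY, hXW, hYW, h1, h2⟩ := triple S hS
    have h3 := (hineq X hX Y hY W hW hSX hSY hXW hYW h1 h2).1
    have hXmin : Mn F X := by
      by_contra hcon
      rw [hV _ X hX, hV _ W hW, if_neg (hnotmin X Y W hX hXW hYW h2), if_neg hcon] at h3
      have h4 := hcardlt X Y W hXW hYW h2
      simp only [g] at h3
      linarith
    have hne : (X \ S).Nonempty := by
      rw [sdiff_nonempty]
      exact fun hsub => hS.1 X hX hsub
    obtain ⟨u, hu⟩ := hne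
    obtain ⟨huX, huS⟩ := mem_sdiff.1 hu
    obtain ⟨D, hD, hDs⟩ := hS.2 u huS
    have hsub : insert u S ⊆ X := insert_subset huX hSX
    have hDX : D = X := hXmin.2 D hD (hDs.trans hsub)
    have hXeq : insert u S = X := Subset.antisymm hsub (hDX ▸ hDs)
    refine ⟨S, u, hS, huS, hXeq ▸ hX, ?_⟩
    rw [hXeq]
    exact hXmin.2

end Pool.Agent.Helper7.DS
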