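import Pool.Agent.Helper7.DS.Defs

namespace Pool.Agent.Helper7.DS

open Finset

/-- The evaluation map `(v, c) ↦ (v(C) - c)_C`. -/
noncomputable def evalMap (n : ℕ) (F : Finset (Finset (Fin n))) :
    ((Fin n → ℝ) × ℝ) →ₗ[ℝ] (F → ℝ) where
  toFun p := fun C => ∑ i ∈ C.1, p.1 i - p.2
  map_add' p q := by
    funext C
    simp only [Prod.fst_add, Prod.snd_add, Pi.add_apply, sum_add_distrib]
    ring
  map_smul' a p := by
    funext C
    simp only [Prod.smul_fst, Prod.smul_snd, Pi.smul_apply, smul_eq_mul, RingHom.id_apply,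
      ← mul_sum]
    ring

theorem LIN_thm : S_LIN := by
  intro n F hne hspan
  have hinj : Function.Injective (evalMap n F) := by
    rw [← LinearMap.ker_eq_bot, LinearMap.ker_eq_bot']
    rintro ⟨v, c⟩ hp
    have hval : ∀ C ∈ F, ∑ i ∈ C, v i = c := by
      intro C hC
      have := congrFun hp ⟨C, hC⟩
      simp only [evalMap, LinearMap.coe_mk, AddHom.coe_mk, Pi.zero_apply] at this
      linarith
    have hv := hspan v c hval
    obtain ⟨C, hC⟩ := hne
    have hc : c = 0 := by
      rw [← hval C hC]
      exact sum_eq_zero fun i _ => hv i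
    rw [hc]
    have : v = 0 := funext hv
    rw [this]
    rfl
  have hdim1 : Module.finrank ℝ ((Fin n → ℝ) × ℝ) = n + 1 := by
    rw [Module.finrank_prod, Module.finrank_fin_fun, Module.finrank_self]
  have hdim2 : Module.finrank ℝ (F → ℝ) = F.card := by
    rw [Module.finrank_fintype_fun_eq_card, Fintype.card_coe]
  refine ⟨?_, fun hcard => ?_⟩
  · have := LinearMap.finrank_le_finrank_of_injective hinj
    rwa [hdim1, hdim2] at this
  · have hsurj : Function.Surjective (evalMap n F) :=
      (LinearMap.injective_iff_surjective_of_finrank_eq_finrank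
        (by rw [hdim1, hdim2, hcard])).1 hinj
    intro f
    obtain ⟨⟨v, c⟩, hp⟩ := hsurj (fun C => f C.1)
    refine ⟨v, c, fun C hC => ?_⟩
    have := congrFun hp ⟨C, hC⟩
    simp only [evalMap, LinearMap.coe_mk, AddHom.coe_mk] at this
    linarith

end Pool.Agent.Helper7.DS
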