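import Pool.Agent.Helper7.DS.Defs

/-!
# Diamond-saturated families without `∅`, `[n]` affinely span `ℝⁿ`
-/

namespace Pool.Agent.Helper7.DS

open Finset

variable {n : ℕ} {F : Finset (Finset (Fin n))}

theorem bot_of_noMember (hF : Sat F) {S : Finset (Fin n)} (h : ∀ C ∈ F, ¬ C ⊆ S) : Bot F S := by
  have hS : S ∉ F := fun hS => h S hS Subset.rfl
  rcases hF.sat S hS with h1 | ⟨Z, hZ, X, hX, W, hW, hZS, _⟩ |
    ⟨Z, hZ, X, hX, Y, hY, hZX, hZY, hXS, _⟩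
  · exact h1
  · exact (h Z hZ hZS).elim
  · exact (h Z hZ (hZX.trans hXS)).elim

theorem exists_facet {R : Finset (Fin n)} (hR : ∀ C ∈ F, ¬ C ⊆ R) :
    ∃ S, R ⊆ S ∧ Facet F S := by
  classical
  have hA : ((univ : Finset (Finset (Fin n))).filter
      (fun S => R ⊆ S ∧ ∀ C ∈ F, ¬ C ⊆ S)).Nonempty :=
    ⟨R, by simp only [mem_filter, mem_univ, true_and]; exact ⟨Subset.rfl, hR⟩⟩
  obtain ⟨S, hS, hmax⟩ := exists_max_image _ card hA
  simp only [mem_filter, mem_univ, true_and] at hS hmax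
  refine ⟨S, hS.1, hS.2, fun w hw => ?_⟩
  by_contra hcon
  push Not at hcon
  have := hmax (insert w S) ⟨hS.1.trans (subset_insert _ _), hcon⟩
  rw [card_insert_of_notMem hw] at this
  omega

theorem inter_eq (hF : Sat F) {S X Y W : Finset (Fin n)} (hS : Facet F S) (hX : X ∈ F)
    (hY : Y ∈ F) (hW : W ∈ F) (hSX : S ⊆ X) (hSY : S ⊆ Y) (hXW : X ⊆ W) (hYW : Y ⊆ W)
    (h1 : ¬ X ⊆ Y) (h2 : ¬ Y ⊆ X) : X ∩ Y = S := by
  apply Subset.antisymm _ (subset_inter hSX hSY)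
  intro w hw
  by_contra hwS
  obtain ⟨C, hC, hCs⟩ := hS.2 w hwS
  have hsub : insert w S ⊆ X ∩ Y := insert_subset hw (subset_inter hSX hSY)
  rcases hF.free C hC X hX Y hY W hW ((hCs.trans hsub).trans inter_subset_left)
    ((hCs.trans hsub).trans inter_subset_right) hXW hYW with h | h
  exacts [h1 h, h2 h]

/-- The value on a facet containing all positive labels. -/
theorem facet_val (hF : Sat F) {v : Fin n → ℝ} {c : ℝ} (h : ∀ C ∈ F, ∑ i ∈ C, v i = c)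
    {S : Finset (Fin n)} (hS : Facet F S) (hP : ∀ i, 0 < v i → i ∈ S) :
    ∑ i ∈ S, v i = c ∧ ∃ o, o ∉ S ∧ v o = 0 := by
  obtain ⟨X, hX, Y, hY, W, hW, hSX, hSY, hXW, hYW, h1, h2⟩ := bot_of_noMember hF hS.1
  have hint := inter_eq hF hS hX hY hW hSX hSY hXW hYW h1 h2
  have hneg : ∀ i, i ∉ S → v i ≤ 0 := fun i hi => by
    by_contra hcon
    exact hi (hP i (not_le.1 hcon))
  have eX : ∑ i ∈ X \ S, v i + ∑ i ∈ S, v i = c := by rw [sum_sdiff hSX, h X hX]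
  have eU : ∑ i ∈ X ∪ Y, v i + ∑ i ∈ X ∩ Y, v i = ∑ i ∈ X, v i + ∑ i ∈ Y, v i :=
    sum_union_inter
  have eW : ∑ i ∈ W \ (X ∪ Y), v i + ∑ i ∈ X ∪ Y, v i = c := by
    rw [sum_sdiff (union_subset hXW hYW), h W hW]
  have nX : ∑ i ∈ X \ S, v i ≤ 0 := sum_nonpos fun i hi => hneg i (mem_sdiff.1 hi).2
  have nW : ∑ i ∈ W \ (X ∪ Y), v i ≤ 0 := sum_nonpos fun i hi => hneg i fun hiS =>
    (mem_sdiff.1 hi).2 (mem_union_left _ (hSX hiS))
  rw [hint, h X hX, h Y hY] at eU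
  have hval : ∑ i ∈ S, v i = c := by linarith
  refine ⟨hval, ?_⟩
  have h0 : ∑ i ∈ X \ S, v i = 0 := by linarith
  have hne : (X \ S).Nonempty := by
    rw [sdiff_nonempty]
    exact fun hsub => hS.1 X hX hsub
  obtain ⟨o, ho⟩ := hne
  have hz := (sum_eq_zero_iff_of_nonpos (fun i hi => hneg i (mem_sdiff.1 hi).2)).1 h0
  exact ⟨o, (mem_sdiff.1 ho).2, hz o ho⟩

theorem noMember_pos (hF : Sat F) {v : Fin n → ℝ} {c : ℝ} (h : ∀ C ∈ F, ∑ i ∈ C, v i = c)
    (hc : c ≤ 0) : ∀ C ∈ F, ¬ C ⊆ univ.filter (fun i => 0 < v i) := by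
  intro C hC hsub
  have hne : C.Nonempty := by
    rw [nonempty_iff_ne_empty]
    rintro rfl
    exact hF.empty hC
  have : 0 < ∑ i ∈ C, v i := sum_pos (fun i hi => (mem_filter.1 (hsub hi)).2) hne
  rw [h C hC] at this
  linarith

theorem c_zero_of_nonpos (hF : Sat F) {v : Fin n → ℝ} {c : ℝ}
    (h : ∀ C ∈ F, ∑ i ∈ C, v i = c) (hc : c ≤ 0) : c = 0 := by
  classical
  have hA : ((univ : Finset (Finset (Fin n))).filter
      (fun R => (∀ i, 0 < v i → i ∈ R) ∧ (∀ i ∈ R, 0 ≤ v i) ∧ ∀ C ∈ F, ¬ C ⊆ R)).Nonempty := by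
    refine ⟨univ.filter (fun i => 0 < v i), ?_⟩
    simp only [mem_filter, mem_univ, true_and]
    refine ⟨fun i hi => hi, fun i hi => hi.le, noMember_pos hF h hc⟩
  obtain ⟨R, hR, hmax⟩ := exists_max_image _ card hA
  simp only [mem_filter, mem_univ, true_and] at hR hmax
  obtain ⟨S, hRS, hS⟩ := exists_facet hR.2.2
  obtain ⟨_, o, hoS, hvo⟩ := facet_val hF h hS (fun i hi => hRS (hR.1 i hi))
  have hoR : o ∉ R := fun ho => hoS (hRS ho)
  by_contra hcne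
  have : ∀ C ∈ F, ¬ C ⊆ insert o R := by
    intro K hK hsub
    have : 0 ≤ ∑ i ∈ K, v i := sum_nonneg fun i hi => by
      rcases mem_insert.1 (hsub hi) with rfl | hi'
      · exact hvo.ge
      · exact hR.2.1 i hi'
    rw [h K hK] at this
    exact hcne (le_antisymm hc this)
  have hcard := hmax (insert o R) ⟨fun i hi => mem_insert_of_mem (hR.1 i hi), fun i hi => by
    rcases mem_insert.1 hi with rfl | hi'
    · exact hvo.ge
    · exact hR.2.1 i hi', this⟩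
  rw [card_insert_of_notMem hoR] at hcard
  omega

theorem c_zero (hF : Sat F) {v : Fin n → ℝ} {c : ℝ}
    (h : ∀ C ∈ F, ∑ i ∈ C, v i = c) : c = 0 := by
  rcases le_total c 0 with hc | hc
  · exact c_zero_of_nonpos hF h hc
  · have := c_zero_of_nonpos hF (v := fun i => - v i) (c := -c)
      (by intro C hC; rw [sum_neg_distrib, h C hC]) (by linarith)
    linarith

theorem compl_const {v : Fin n → ℝ} {c : ℝ} (h : ∀ C ∈ F, ∑ i ∈ C, v i = c) :
    ∀ D ∈ F.image compl, ∑ i ∈ D, v i = (∑ i, v i) - c := by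
  intro D hD
  obtain ⟨C, hC, rfl⟩ := mem_image.1 hD
  have := sum_add_sum_compl C v
  rw [h C hC] at this
  linarith

theorem univ_zero (hc : S_COMPL) (hF : Sat F) {v : Fin n → ℝ} {c : ℝ}
    (h : ∀ C ∈ F, ∑ i ∈ C, v i = c) : ∑ i, v i = 0 := by
  have h1 := c_zero hF h
  have h2 := c_zero (hc n F hF) (compl_const h)
  linarith

/-- A facet containing the positive labels contains the whole support. -/
theorem facet_support (hc : S_COMPL) (hF : Sat F) {v : Fin n → ℝ}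
    (h : ∀ C ∈ F, ∑ i ∈ C, v i = 0) {S : Finset (Fin n)} (hS : Facet F S)
    (hP : ∀ i, 0 < v i → i ∈ S) : ∀ i, i ∉ S → v i = 0 := by
  have h1 := (facet_val hF h hS hP).1
  have h2 := univ_zero hc hF h
  have h3 := sum_add_sum_compl S v
  rw [h1, h2] at h3
  have h4 : ∑ i ∈ Sᶜ, v i = 0 := by linarith
  have hneg : ∀ i ∈ Sᶜ, v i ≤ 0 := fun i hi => by
    by_contra hcon
    exact (mem_compl.1 hi) (hP i (not_le.1 hcon))
  intro i hi
  exact (sum_eq_zero_iff_of_nonpos hneg).1 h4 i (mem_compl.2 hi)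

/-- Every member contains a member on which `v` vanishes. -/
theorem below (hc : S_COMPL) (hF : Sat F) {v : Fin n → ℝ}
    (h : ∀ C ∈ F, ∑ i ∈ C, v i = 0) : ∀ Z ∈ F, ∃ K ∈ F, K ⊆ Z ∧ ∀ i ∈ K, v i = 0 := by
  classical
  intro Z hZ
  by_cases hno : ∀ C ∈ F, ¬ C ⊆ univ.filter (fun i => 0 < v i) ∪ Z.filter (fun i => v i = 0)
  · exfalso
    obtain ⟨S, hRS, hS⟩ := exists_facet hno
    have hsup := facet_support hc hF h hS (fun i hi => hRS (mem_union_left _ (by simpa using hi)))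
    refine hS.1 Z hZ fun i hi => ?_
    by_contra hiS
    exact hiS (hRS (mem_union_right _ (mem_filter.2 ⟨hi, hsup i hiS⟩)))
  · push Not at hno
    obtain ⟨K, hK, hsub⟩ := hno
    have hnn : ∀ i ∈ K, 0 ≤ v i := fun i hi => by
      rcases mem_union.1 (hsub hi) with h1 | h1
      · exact (mem_filter.1 h1).2.le
      · exact (mem_filter.1 h1).2.ge
    have hz := (sum_eq_zero_iff_of_nonneg hnn).1 (h K hK)
    refine ⟨K, hK, fun i hi => ?_, hz⟩
    rcases mem_union.1 (hsub hi) with h1 | h1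
    · exact absurd (hz i hi) (mem_filter.1 h1).2.ne'
    · exact (mem_filter.1 h1).1

/-- Every member is contained in a member that contains the support of `v`. -/
theorem above (hc : S_COMPL) (hF : Sat F) {v : Fin n → ℝ}
    (h : ∀ C ∈ F, ∑ i ∈ C, v i = 0) : ∀ C ∈ F, ∃ B ∈ F, C ⊆ B ∧ ∀ i, v i ≠ 0 → i ∈ B := by
  intro C hC
  have h0 : ∀ D ∈ F.image compl, ∑ i ∈ D, v i = 0 := by
    intro D hD
    rw [compl_const h D hD, univ_zero hc hF h, sub_zero]
  obtain ⟨K, hK, hKC, hv⟩ := below hc (hc n F hF) h0 Cᶜ (mem_image_of_mem _ hC)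
  obtain ⟨B, hB, rfl⟩ := mem_image.1 hK
  refine ⟨B, hB, compl_subset_compl.1 hKC, fun i hi => ?_⟩
  by_contra hiB
  exact hi (hv i (mem_compl.2 hiB))

theorem SPAN_thm (hc : S_COMPL) : S_SPAN := by
  classical
  intro n F hF v c h
  have hc0 := c_zero hF h
  subst hc0
  by_contra hcon
  push Not at hcon
  obtain ⟨i0, hi0⟩ := hcon
  obtain ⟨Z0, hZ0, -⟩ := bot_of_noMember hF (S := ∅) (fun C hC hsub => by
    rw [subset_empty] at hsub
    exact hF.empty (hsub ▸ hC))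
  obtain ⟨K0, hK0, -, hvK0⟩ := below hc hF h Z0 hZ0
  have hA : (F.filter (fun Y => ∃ i, v i ≠ 0 ∧ i ∉ Y)).Nonempty :=
    ⟨K0, mem_filter.2 ⟨hK0, i0, hi0, fun hmem => hi0 (hvK0 _ hmem)⟩⟩
  obtain ⟨Y, hY, hmax⟩ := exists_max_image _ card hA
  obtain ⟨hYF, i, hvi, hiY⟩ := mem_filter.1 hY
  -- every strictly larger member contains the support
  have hbig : ∀ X ∈ F, Y ⊆ X → X ≠ Y → i ∈ X := by
    intro X hX hYX hne
    by_contra hiX
    have h1 := hmax X (mem_filter.2 ⟨hX, i, hvi, hiX⟩)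
    exact hne (eq_of_subset_of_card_le hYX h1).symm
  have hSF : insert i Y ∉ F := by
    intro hmem
    have h1 := h _ hmem
    rw [sum_insert hiY, h Y hYF, add_zero] at h1
    exact hvi h1
  rcases hF.sat _ hSF with ⟨X1, hX1, Y1, hY1, W1, hW1, h1, h2, h3, h4, h5, h6⟩ |
    ⟨Z, hZ, X1, hX1, W1, hW1, h1, h2, h3, h4, h5, h6⟩ |
    ⟨Z, hZ, X1, hX1, Y1, hY1, h1, h2, h3, h4, h5, h6⟩
  · have hYs := subset_insert i Y
    rcases hF.free Y hYF X1 hX1 Y1 hY1 W1 hW1 (hYs.trans h1) (hYs.trans h2) h3 h4 with h | h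
    exacts [h5 h, h6 h]
  · -- side: Z ⊆ S, Z ⊆ X1, S ⊆ W1, X1 ⊆ W1, ¬ X1 ⊆ S, ¬ S ⊆ X1
    obtain ⟨M, hM, hMZ, hvM⟩ := below hc hF h Z hZ
    have hMY : M ⊆ Y := by
      intro j hj
      rcases mem_insert.1 (h1 (hMZ hj)) with rfl | hj'
      · exact absurd (hvM _ hj) hvi
      · exact hj'
    have hYs := subset_insert i Y
    rcases hF.free M hM Y hYF X1 hX1 W1 hW1 hMY (hMZ.trans h2) (hYs.trans h3) h4 with h7 | h7
    · -- Y ⊆ X1
      by_cases hne : X1 = Y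
      · exact h5 (hne ▸ hYs)
      · exact h6 (insert_subset (hbig X1 hX1 h7 hne) h7)
    · exact h5 (h7.trans hYs)
  · -- top
    obtain ⟨B, hB, hYB, hsB⟩ := above hc hF h Y hYF
    have hSB : insert i Y ⊆ B := insert_subset (hsB i hvi) hYB
    rcases hF.free Z hZ X1 hX1 Y1 hY1 B hB h1 h2 (h3.trans hSB) (h4.trans hSB) with h | h
    exacts [h5 h, h6 h]

end Pool.Agent.Helper7.DS
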